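import Mathlib
import Pool.Agent.W769.SR.Stm

/-!
Project SR (helper769): assembly.
-/

set_option autoImplicit false

namespace Pool.Agent.W753.SR.Fin

open Pool.Agent.W769.SR Metric Set Filter Topology

lemma good_anti {p ρ ρ' : ℝ} (h : Good p ρ') (hle : ρ ≤ ρ') : Good p ρ :=
  fun f g hf hg hs r hr hr2 => h f g hf hg hs r hr (lt_of_lt_of_le hr2 hle)

lemma deriv_cont {φ : ℂ → ℂ} (hφ : DifferentiableOn ℂ φ (ball 0 1)) :
    DifferentiableOn ℂ (deriv φ) (ball 0 1) := hφ.deriv isOpen_ball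

lemma good_of_poly (h8 : S_GOODPOLY) (h9 : S_NZ) (h10 : S_ALLR) {p q ρ : ℝ} (hp : 0 < p)
    (hpq : p ≤ q) (hρ : ρ ≤ 1) (hP : ∀ r, 0 < r → r < ρ → PolyIneq q r) : Good p ρ := by
  intro f g hf hg hs r hr hrρ
  obtain ⟨φ, hφ, hgφ⟩ := hs
  rw [h8.2 p r hp hr (lt_of_lt_of_le hrρ hρ) f φ hf hφ g hgφ]
  refine h10 p ρ hp hρ φ hφ (deriv φ) (deriv_cont hφ.diff).continuousOn (deriv f) (deriv_cont hf)
    ?_ r hr hrρ
  intro r' hr' hr'ρ hne
  exact h9 p q r' hp hpq hr' (lt_of_lt_of_le hr'ρ hρ) (hP r' hr' hr'ρ) φ hφ (deriv f)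
    (deriv_cont hf) hne

lemma poly_two (h4 : S_L2) {r : ℝ} (hr : 0 < r) (hr2 : r < 1 / 2) : PolyIneq 2 r := by
  intro φ hφ P
  have := (h4 φ hφ (fun z => P.eval z) 1 r hr (by linarith) le_rfl
    P.differentiable.differentiableOn).2 hr2.le
  simp only [Real.rpow_two]
  exact this

lemma sqrt_lt : √2 - 1 < 1 / 2 := by
  have : √2 < 3 / 2 := by
    rw [Real.sqrt_lt' (by norm_num)]; norm_num
  linarith

lemma sqrt_pos' : 0 < √2 - 1 := by
  have : 1 < √2 := by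
    rw [Real.lt_sqrt (by norm_num)]; norm_num
  linarith

lemma good_sqrt (h8 : S_GOODPOLY) (h9' : S_NZ0) (h10 : S_ALLR) (h11 : S_CARA) {p : ℝ}
    (hp : 0 < p) : Good p (√2 - 1) := by
  have hs := sqrt_lt
  intro f g hf hg hsub r hr hrρ
  obtain ⟨φ, hφ, hgφ⟩ := hsub
  have hr1 : r < 1 := by linarith
  rw [h8.2 p r hp hr hr1 f φ hf hφ g hgφ]
  have key := h10 p 1 hp le_rfl φ hφ (fun _ => 1) continuousOn_const (deriv f) (deriv_cont hf)
    (by
      intro r' hr' hr'1 hne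
      simp only [mul_one]
      exact h9' p r' hp hr' hr'1 φ hφ (deriv f) (deriv_cont hf) hne) r hr hr1
  simp only [mul_one] at key
  refine le_trans ?_ key
  have hsph : sphere (0 : ℂ) r ⊆ ball 0 1 := by
    intro z hz
    rw [mem_sphere_zero_iff_norm] at hz
    rw [mem_ball_zero_iff, hz]
    exact hr1
  have c1 : ContinuousOn (fun z => deriv f (φ z)) (sphere 0 r) :=
    ((deriv_cont hf).continuousOn.comp hφ.diff.continuousOn hφ.maps).mono hsph
  have c2 : ContinuousOn (deriv φ) (sphere 0 r) := (deriv_cont hφ.diff).continuousOn.mono hsph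
  unfold av
  apply Real.circleAverage_mono
  · apply ContinuousOn.circleIntegrable hr.le
    exact (c1.mul c2).norm.rpow_const (fun _ _ => Or.inr hp.le)
  · apply ContinuousOn.circleIntegrable hr.le
    exact c1.norm.rpow_const (fun _ _ => Or.inr hp.le)
  · intro z hz
    rw [abs_of_pos hr, mem_sphere_zero_iff_norm] at hz
    apply Real.rpow_le_rpow (norm_nonneg _) _ hp.le
    rw [norm_mul]
    exact mul_le_of_le_one_right (norm_nonneg _) (h11 φ hφ z (by rw [hz]; exact hrρ.le))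

theorem strict (h8 : S_GOODPOLY) (h14 : S_14) : S_STRICT := by
  obtain ⟨hself, hlt⟩ := h14
  set f : ℂ → ℂ := fun z => z + z ^ 2 / 10 with hf
  have hfd : ∀ z, HasDerivAt f (1 + z / 5) z := by
    intro z
    have h1 := (hasDerivAt_id z).add ((hasDerivAt_pow 2 z).div_const 10)
    refine h1.congr_deriv ?_
    push_cast
    ring
  have hderiv : deriv f = fun z => 1 + z / 5 := by
    funext z; exact (hfd z).deriv
  have hfdiff : DifferentiableOn ℂ f (ball 0 1) := fun z _ =>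
    (hfd z).differentiableAt.differentiableWithinAt
  have hgdiff : DifferentiableOn ℂ (fun z => f (phi14 z)) (ball 0 1) :=
    hfdiff.comp hself.diff hself.maps
  -- continuity of the averages
  have hc1 : ContinuousOn (fun z : ℂ => ‖1 + z / 5‖ ^ (14 : ℕ)) {z : ℂ | ‖z - 0‖ ∈ Ico (0 : ℝ) 1} := by
    fun_prop
  have hc2 : ContinuousOn (fun z : ℂ => ‖(1 + phi14 z / 5) * deriv phi14 z‖ ^ (14 : ℕ))
      {z : ℂ | ‖z - 0‖ ∈ Ico (0 : ℝ) 1} := by
    have hsub : {z : ℂ | ‖z - 0‖ ∈ Ico (0 : ℝ) 1} ⊆ ball 0 1 := by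
      intro z hz
      have hz' : ‖z - 0‖ ∈ Ico (0 : ℝ) 1 := hz
      rw [sub_zero] at hz'
      rw [mem_ball_zero_iff]
      exact hz'.2
    have k1 : ContinuousOn phi14 {z : ℂ | ‖z - 0‖ ∈ Ico (0 : ℝ) 1} :=
      hself.diff.continuousOn.mono hsub
    have k2 : ContinuousOn (deriv phi14) {z : ℂ | ‖z - 0‖ ∈ Ico (0 : ℝ) 1} :=
      (deriv_cont hself.diff).continuousOn.mono hsub
    exact (((continuousOn_const.add (k1.div_const 5)).mul k2).norm).pow 14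
  have a1 := Real.ContinuousOn.circleAverage hc1 (fun r hr => hr.1)
  have a2 := Real.ContinuousOn.circleAverage hc2 (fun r hr => hr.1)
  have hnh : Ico (0 : ℝ) 1 ∈ 𝓝 (1 / 2 : ℝ) := Ico_mem_nhds (by norm_num) (by norm_num)
  have b1 := a1.continuousAt hnh
  have b2 := a2.continuousAt hnh
  have hev : ∀ᶠ r in 𝓝 (1 / 2 : ℝ), av r (fun z => ‖1 + z / 5‖ ^ (14 : ℕ)) <
      av r (fun z => ‖(1 + phi14 z / 5) * deriv phi14 z‖ ^ (14 : ℕ)) :=
    b1.eventually_lt b2 hlt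
  have hev2 : ∀ᶠ r in 𝓝[<] (1 / 2 : ℝ), r ∈ Ioo (0 : ℝ) (1 / 2) :=
    Ioo_mem_nhdsLT (by norm_num)
  obtain ⟨r, hr1, hr2⟩ := ((hev.filter_mono nhdsWithin_le_nhds).and hev2).exists
  refine ⟨(r + 1 / 2) / 2, by linarith [hr2.1], by linarith [hr2.2], ?_⟩
  intro hgood
  have h1 := hgood f (fun z => f (phi14 z)) hfdiff hgdiff ⟨phi14, hself, fun z _ => rfl⟩ r hr2.1
    (by linarith [hr2.2])
  rw [h8.2 14 r (by norm_num) hr2.1 (by linarith [hr2.2]) f phi14 hfdiff hself _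
    (fun z _ => rfl), hderiv] at h1
  simp only [Real.rpow_ofNat] at h1
  linarith

theorem main (h4 : S_L2) (h8 : S_GOODPOLY) (h9 : S_NZ) (h9' : S_NZ0) (h10 : S_ALLR)
    (h11 : S_CARA) (h12 : S_HALF) (h13 : S_LARGE) (h14 : S_14) :
    S_MONO ∧ S_STRICT ∧ S_MAIN := by
  have hmono : S_MONO := by
    intro p q ρ hp hpq hρ hgood
    exact good_of_poly h8 h9 h10 hp hpq hρ (fun r hr hrρ =>
      h8.1 q ρ r (lt_of_lt_of_le hp hpq) hρ hgood hr hrρ)
  have hstrict := strict h8 h14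
  have hhalf : ∀ p : ℝ, 0 < p → p ≤ 2 → Good p (1 / 2) := fun p hp hp2 =>
    good_of_poly h8 h9 h10 hp hp2 (by norm_num) (fun r hr hr2 => poly_two h4 hr hr2)
  have hsq : ∀ p : ℝ, 0 < p → Good p (√2 - 1) := fun p hp => good_sqrt h8 h9' h10 h11 hp
  have hs1 := sqrt_lt
  have hs2 := sqrt_pos'
  have hmem : ∀ p : ℝ, 0 < p → √2 - 1 ∈ {ρ : ℝ | 0 < ρ ∧ ρ ≤ 1 ∧ Good p ρ} := fun p hp =>
    ⟨hs2, by linarith, hsq p hp⟩
  have hbdd : ∀ p : ℝ, 0 < p → ∀ ρ ∈ {ρ : ℝ | 0 < ρ ∧ ρ ≤ 1 ∧ Good p ρ}, ρ ≤ 1 / 2 :=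
    fun p hp ρ hρ => h12 p ρ hp hρ.2.1 hρ.2.2
  have hba : ∀ p : ℝ, 0 < p → BddAbove {ρ : ℝ | 0 < ρ ∧ ρ ≤ 1 ∧ Good p ρ} := fun p hp =>
    ⟨1 / 2, hbdd p hp⟩
  refine ⟨hmono, hstrict, ?_, ?_, ?_, ?_⟩
  · intro p hp hp2
    apply le_antisymm
    · exact csSup_le ⟨_, hmem p hp⟩ (hbdd p hp)
    · exact le_csSup (hba p hp) ⟨by norm_num, by norm_num, hhalf p hp hp2⟩
  · intro p q hp hpq
    apply csSup_le_csSup (hba p hp) ⟨_, hmem q (lt_of_lt_of_le hp hpq)⟩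
    rintro ρ ⟨h1, h2, h3⟩
    exact ⟨h1, h2, hmono p q ρ hp hpq h2 h3⟩
  · intro p hp
    obtain ⟨ρ0, h1, h2, h3⟩ := hstrict
    refine lt_of_le_of_lt ?_ h2
    apply csSup_le ⟨_, hmem p (by linarith)⟩
    rintro ρ ⟨k1, k2, k3⟩
    by_contra hc
    push Not at hc
    exact h3 (good_anti (hmono 14 p ρ (by norm_num) hp k2 k3) hc.le)
  · rw [tendsto_order]
    constructor
    · intro a ha
      filter_upwards [eventually_gt_atTop (0 : ℝ)] with p hp
      exact lt_of_lt_of_le ha (le_csSup (hba p hp) (hmem p hp))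
    · intro b hb
      set ρ := min ((√2 - 1 + b) / 2) 1 with hρ
      have hρ1 : √2 - 1 < ρ := lt_min (by linarith) (by linarith)
      have hρ2 : ρ ≤ 1 := min_le_right _ _
      have hρ3 : ρ < b := lt_of_le_of_lt (min_le_left _ _) (by linarith)
      obtain ⟨P, hP⟩ := h13 ρ hρ1 hρ2
      filter_upwards [eventually_gt_atTop (0 : ℝ), eventually_ge_atTop P] with p hp hpP
      refine lt_of_le_of_lt ?_ hρ3
      apply csSup_le ⟨_, hmem p hp⟩
      rintro ρ' ⟨k1, k2, k3⟩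
      by_contra hc
      push Not at hc
      exact hP p hpP (good_anti k3 hc.le)

end Pool.Agent.W753.SR.Fin
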