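import Mathlib
import Pool.Agent.W769.SR.Stm

/-!
Project SR (helper769): the inequalities of Littlewood and Goluzin for the exponent two.
-/

set_option autoImplicit false

namespace Pool.Agent.W753.SR.L2

open Pool.Agent.W769.SR Metric Set Filter Topology

/-- Abel summation -/
lemma abel {a b w : ℕ → ℝ} (h : ∀ n, ∑ k ∈ Finset.range n, b k ≤ ∑ k ∈ Finset.range n, a k)
    (hw : ∀ n, w (n + 1) ≤ w n) (hw0 : ∀ n, 0 ≤ w n) (n : ℕ) :
    ∑ k ∈ Finset.range n, w k * b k ≤ ∑ k ∈ Finset.range n, w k * a k := by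
  have key : ∀ n, w n * (∑ k ∈ Finset.range (n + 1), (a k - b k)) ≤
      ∑ k ∈ Finset.range (n + 1), w k * (a k - b k) := by
    intro n
    induction n with
    | zero => simp
    | succ n ih =>
      rw [Finset.sum_range_succ (fun k => a k - b k), Finset.sum_range_succ _ (n + 1)]
      have h1 : 0 ≤ ∑ k ∈ Finset.range (n + 1), (a k - b k) := by
        rw [Finset.sum_sub_distrib]; linarith [h (n + 1)]
      nlinarith [hw n, mul_le_mul_of_nonneg_right (hw n) h1]
  rcases Nat.eq_zero_or_pos n with h0 | h0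
  · subst h0; simp
  · obtain ⟨m, rfl⟩ : ∃ m, n = m + 1 := ⟨n - 1, by omega⟩
    have h1 : 0 ≤ ∑ k ∈ Finset.range (m + 1), (a k - b k) := by
      rw [Finset.sum_sub_distrib]; linarith [h (m + 1)]
    have h2 := key m
    have h3 : 0 ≤ w m * (∑ k ∈ Finset.range (m + 1), (a k - b k)) := mul_nonneg (hw0 m) h1
    have h4 : ∑ k ∈ Finset.range (m + 1), w k * (a k - b k) =
        ∑ k ∈ Finset.range (m + 1), w k * a k - ∑ k ∈ Finset.range (m + 1), w k * b k := by
      rw [← Finset.sum_sub_distrib]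
      exact Finset.sum_congr rfl (fun k _ => by ring)
    linarith

lemma le_of_sums {f g : ℕ → ℝ} {a b : ℝ} (hf : HasSum f a) (hg : HasSum g b)
    (h : ∀ n, ∑ k ∈ Finset.range n, f k ≤ ∑ k ∈ Finset.range n, g k) : a ≤ b :=
  le_of_tendsto_of_tendsto' hf.tendsto_sum_nat hg.tendsto_sum_nat h

lemma norm_phi {φ : ℂ → ℂ} (hφ : SelfMap φ) {z : ℂ} (hz : ‖z‖ < 1) : ‖φ z‖ ≤ ‖z‖ :=
  Complex.norm_le_norm_of_mapsTo_ball hφ.diff (by
    exact hφ.maps.mono_right ball_subset_closedBall) hφ.zero hz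

lemma maps_phi {φ : ℂ → ℂ} (hφ : SelfMap φ) {R : ℝ} (hR : R ≤ 1) :
    MapsTo φ (ball 0 R) (ball 0 R) := by
  intro z hz
  rw [mem_ball_zero_iff] at hz ⊢
  exact lt_of_le_of_lt (norm_phi hφ (lt_of_lt_of_le hz hR)) hz

lemma diff_phi {φ : ℂ → ℂ} (hφ : SelfMap φ) {R : ℝ} (hR : R ≤ 1) :
    DifferentiableOn ℂ φ (ball 0 R) := hφ.diff.mono (ball_subset_ball hR)

/-- coefficients of a derivative -/
lemma co_deriv {f g : ℂ → ℂ} {R : ℝ} (hR : 0 < R) (h : ∀ z ∈ ball (0 : ℂ) R, HasDerivAt f (g z) z)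
    (k : ℕ) : co g k = (k + 1) * co f (k + 1) := by
  have e : g =ᶠ[𝓝 0] deriv f := by
    filter_upwards [ball_mem_nhds (0 : ℂ) hR] with z hz
    exact (h z hz).deriv.symm
  unfold co
  rw [e.iteratedDeriv_eq k, iteratedDeriv_succ', Nat.factorial_succ]
  have h1 : (k.factorial : ℂ) ≠ 0 := by exact_mod_cast Nat.factorial_ne_zero k
  have h2 : ((k : ℂ) + 1) ≠ 0 := by exact_mod_cast Nat.succ_ne_zero k
  push_cast
  field_simp

/-- the weights -/
noncomputable def wt (r : ℝ) : ℕ → ℝ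
  | 0 => 1
  | n + 1 => ((n : ℝ) + 1) ^ 2 * r ^ (2 * n)

theorem main (h2 : S_PARS) (h3 : S_ROG) : S_L2 := by
  intro φ hφ G R r hr hrR hR hG
  have hR0 : 0 < R := hr.trans hrR
  have hdφ := diff_phi hφ hR
  have hmφ := maps_phi hφ hR
  have hGφ : DifferentiableOn ℂ (fun z => G (φ z)) (ball 0 R) := hG.comp hdφ hmφ
  constructor
  · apply le_of_sums (h2 _ R r hr hrR hGφ) (h2 _ R r hr hrR hG)
    intro n
    have := abel (w := fun k => r ^ (2 * k)) (h3 φ hφ G R hR0 hR hG)
      (fun n => by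
        rw [show 2 * (n + 1) = 2 * n + 2 by ring, pow_add]
        have : r ^ 2 ≤ 1 := by nlinarith
        exact mul_le_of_le_one_right (by positivity) this) (fun n => by positivity) n
    simp only [mul_comm (_ ^ (2 * _))] at this
    exact this
  · intro hr2
    obtain ⟨f, hf⟩ := hG.isExactOn_ball
    have hfd : DifferentiableOn ℂ f (ball 0 R) := fun z hz =>
      (hf z hz).differentiableAt.differentiableWithinAt
    have hdφ' : DifferentiableOn ℂ (deriv φ) (ball 0 R) := hdφ.deriv isOpen_ball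
    have hH : DifferentiableOn ℂ (fun z => G (φ z) * deriv φ z) (ball 0 R) := hGφ.mul hdφ'
    have hder : ∀ z ∈ ball (0 : ℂ) R, HasDerivAt (fun z => f (φ z)) (G (φ z) * deriv φ z) z := by
      intro z hz
      have h1 : HasDerivAt φ (deriv φ z) z :=
        (hdφ.differentiableAt (isOpen_ball.mem_nhds hz)).hasDerivAt
      exact (hf (φ z) (hmφ hz)).comp z h1
    have hder0 : ∀ z ∈ ball (0 : ℂ) R, HasDerivAt f (G z) z := fun z hz => hf z hz
    apply le_of_sums (h2 _ R r hr hrR hH) (h2 _ R r hr hrR hG)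
    intro n
    have hco0 : co (fun z => f (φ z)) 0 = co f 0 := by
      unfold co
      rw [iteratedDeriv_zero, iteratedDeriv_zero]
      simp only [hφ.zero]
    have key := abel (w := wt r) (h3 φ hφ f R hR0 hR hfd)
      (fun n => by
        rcases n with _ | n
        · simp [wt]
        · simp only [wt]
          have h5 : ((n : ℝ) + 1 + 1) ^ 2 * r ^ 2 ≤ ((n : ℝ) + 1) ^ 2 := by
            rw [← mul_pow]
            apply pow_le_pow_left₀ (by positivity)
            have : (0 : ℝ) ≤ n := Nat.cast_nonneg n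
            nlinarith
          have h6 : 0 ≤ r ^ (2 * n) := by positivity
          push_cast
          rw [show 2 * (n + 1) = 2 + 2 * n by ring, pow_add, ← mul_assoc]
          exact mul_le_mul_of_nonneg_right h5 h6) (fun n => by
        rcases n with _ | n
        · simp [wt]
        · simp only [wt]; positivity) (n + 1)
    rw [Finset.sum_range_succ' _ n, Finset.sum_range_succ' _ n, hco0] at key
    have key2 : ∑ k ∈ Finset.range n, wt r (k + 1) * ‖co (fun z => f (φ z)) (k + 1)‖ ^ 2 ≤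
        ∑ k ∈ Finset.range n, wt r (k + 1) * ‖co f (k + 1)‖ ^ 2 := by linarith
    have tr : ∀ (F g : ℂ → ℂ), (∀ z ∈ ball (0 : ℂ) R, HasDerivAt F (g z) z) →
        ∑ k ∈ Finset.range n, ‖co g k‖ ^ 2 * r ^ (2 * k) =
        ∑ k ∈ Finset.range n, wt r (k + 1) * ‖co F (k + 1)‖ ^ 2 := by
      intro F g hFg
      apply Finset.sum_congr rfl
      intro k _
      rw [co_deriv hR0 hFg, norm_mul]
      have : ‖((k : ℂ) + 1)‖ = (k : ℝ) + 1 := by
        have h7 : ((k : ℂ) + 1) = ((k + 1 : ℕ) : ℂ) := by push_cast; ring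
        rw [h7, Complex.norm_natCast]
        push_cast; ring
      rw [this]
      simp only [wt]
      ring
    rw [tr _ _ hder, tr _ _ hder0]
    exact key2

end Pool.Agent.W753.SR.L2
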