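import Mathlib
import Pool.Agent.W769.SR.Stm

/-!
Project SR (helper769): the explicit pair for the exponent 14.
-/

set_option autoImplicit false

namespace Pool.Agent.W753.SR.P14

open Pool.Agent.W769.SR Metric Set Filter Topology

/-- a polynomial with real coefficients -/
noncomputable def pol (s : ℕ → ℝ) (N : ℕ) (z : ℂ) : ℂ := ∑ k ∈ Finset.range N, (s k : ℂ) * z ^ k

lemma cont_pol (s : ℕ → ℝ) (N : ℕ) : Continuous (pol s N) := by
  unfold pol
  fun_prop

lemma ci {r : ℝ} (hr : 0 < r) {h : ℂ → ℝ} (hh : ContinuousOn h (sphere 0 r)) :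
    CircleIntegrable h 0 r := by
  apply ContinuousOn.circleIntegrable hr.le hh

/-- orthogonality -/
lemma av_add {r R : ℝ} (hr : 0 < r) (hrR : r < R) (s : ℕ → ℝ) (N : ℕ) {g : ℂ → ℂ}
    (hg : DifferentiableOn ℂ g (ball 0 R)) :
    av r (fun z => ‖pol s N z + z ^ N * g z‖ ^ 2) =
      av r (fun z => ‖pol s N z‖ ^ 2) + av r (fun z => ‖z ^ N * g z‖ ^ 2) := by
  unfold av
  set T : ℂ → ℂ := fun z => (∑ k ∈ Finset.range N, (s k : ℂ) * (r : ℂ) ^ (2 * k) *
    z ^ (N - k)) * g z with hT
  have hsub : closedBall (0 : ℂ) r ⊆ ball 0 R := closedBall_subset_ball hrR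
  have hsph : sphere (0 : ℂ) r ⊆ ball 0 R := sphere_subset_closedBall.trans hsub
  have hgc : ContinuousOn g (sphere 0 r) := hg.continuousOn.mono hsph
  have hTd : DifferentiableOn ℂ T (ball 0 R) := by
    apply DifferentiableOn.mul _ hg
    apply Differentiable.differentiableOn
    fun_prop
  have hTc : ContinuousOn T (sphere 0 r) := hTd.continuousOn.mono hsph
  have hT0 : T 0 = 0 := by
    simp only [hT]
    have : ∑ k ∈ Finset.range N, (s k : ℂ) * (r : ℂ) ^ (2 * k) * (0 : ℂ) ^ (N - k) = 0 := by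
      apply Finset.sum_eq_zero
      intro k hk
      rw [Finset.mem_range] at hk
      rw [zero_pow (by omega), mul_zero]
    rw [this, zero_mul]
  have hmean : Real.circleAverage T 0 r = 0 := by
    have hd : DiffContOnCl ℂ T (ball 0 |r|) := by
      rw [abs_of_pos hr]
      apply DifferentiableOn.diffContOnCl
      rw [closure_ball _ hr.ne']
      exact hTd.mono hsub
    rw [hd.circleAverage, hT0]
  have hre : Real.circleAverage (fun z => (T z).re) 0 r = 0 := by
    have h1 := Complex.reCLM.circleAverage_comp_comm (f := T) (c := 0) (R := r)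
      (ContinuousOn.circleIntegrable hr.le hTc)
    rw [hmean, map_zero] at h1
    exact h1
  have hpc : ContinuousOn (pol s N) (sphere 0 r) := (cont_pol s N).continuousOn
  have hpt : EqOn (fun z => ‖pol s N z + z ^ N * g z‖ ^ 2) (fun z => ‖pol s N z‖ ^ 2 +
      ‖z ^ N * g z‖ ^ 2 + 2 * (T z).re) (sphere 0 |r|) := by
    intro z hz
    rw [abs_of_pos hr, mem_sphere_zero_iff_norm] at hz
    have hz0 : z ≠ 0 := by
      intro h0; rw [h0, norm_zero] at hz; exact hr.ne hz
    have hconj : (starRingEnd ℂ) z * z = (r : ℂ) ^ 2 := by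
      rw [← Complex.normSq_eq_conj_mul_self, Complex.normSq_eq_norm_sq, hz]
      push_cast; ring
    have hTz : T z = (starRingEnd ℂ) (pol s N z) * (z ^ N * g z) := by
      simp only [hT, pol, map_sum, map_mul, map_pow, Complex.conj_ofReal]
      rw [← mul_assoc]
      congr 1
      rw [Finset.sum_mul]
      apply Finset.sum_congr rfl
      intro k hk
      rw [Finset.mem_range] at hk
      have e : (z : ℂ) ^ N = z ^ k * z ^ (N - k) := by
        rw [← pow_add]; congr 1; omega
      rw [e, pow_mul, ← hconj, mul_pow]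
      ring
    simp only
    rw [hTz]
    have h5 : ∀ a b : ℂ, ‖a + b‖ ^ 2 = ‖a‖ ^ 2 + ‖b‖ ^ 2 + 2 * ((starRingEnd ℂ) a * b).re := by
      intro a b
      rw [← Complex.normSq_eq_norm_sq, ← Complex.normSq_eq_norm_sq, ← Complex.normSq_eq_norm_sq,
        Complex.normSq_apply, Complex.normSq_apply, Complex.normSq_apply]
      simp only [Complex.add_re, Complex.add_im, Complex.mul_re, Complex.conj_re, Complex.conj_im]
      ring
    exact h5 _ _
  rw [Real.circleAverage_congr_sphere hpt]
  have i1 : CircleIntegrable (fun z => ‖pol s N z‖ ^ 2) 0 r := ci hr (hpc.norm.pow 2)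
  have hgg : ContinuousOn (fun z : ℂ => z ^ N * g z) (sphere 0 r) :=
    (continuous_pow N).continuousOn.mul hgc
  have i2 : CircleIntegrable (fun z => ‖z ^ N * g z‖ ^ 2) 0 r := ci hr (hgg.norm.pow 2)
  have i3 : CircleIntegrable (fun z => 2 * (T z).re) 0 r :=
    ci hr (continuousOn_const.mul (Complex.continuous_re.comp_continuousOn hTc))
  have e1 := Real.circleAverage_fun_add (i1.add i2) i3
  have e2 := Real.circleAverage_fun_add i1 i2
  have e3 : Real.circleAverage (fun z => 2 * (T z).re) 0 r = 0 := by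
    have := Real.circleAverage_fun_smul (a := (2 : ℝ)) (f := fun z => (T z).re) (c := 0) (R := r)
    rw [hre] at this
    simpa using this
  rw [e3, add_zero] at e1
  rw [← e2]
  exact e1

lemma av_pol {r : ℝ} (hr : 0 < r) (s : ℕ → ℝ) (N : ℕ) :
    av r (fun z => ‖pol s N z‖ ^ 2) = ∑ k ∈ Finset.range N, s k ^ 2 * r ^ (2 * k) := by
  induction N with
  | zero =>
    have : (fun z => ‖pol s 0 z‖ ^ 2) = fun _ => (0 : ℝ) := by
      funext z; simp [pol]
    rw [this]
    unfold av
    rw [Real.circleAverage_const]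
    simp
  | succ N ih =>
    have h := av_add hr (by linarith : r < r + 1) s N (g := fun _ => (s N : ℂ))
      (differentiableOn_const _)
    have e : (fun z => ‖pol s (N + 1) z‖ ^ 2) = fun z => ‖pol s N z + z ^ N * (s N : ℂ)‖ ^ 2 := by
      funext z
      unfold pol
      rw [Finset.sum_range_succ, mul_comm (z ^ N)]
    have e2 : av r (fun z => ‖z ^ N * (s N : ℂ)‖ ^ 2) = s N ^ 2 * r ^ (2 * N) := by
      unfold av
      apply Real.circleAverage_const_on_circle
      intro z hz
      rw [abs_of_pos hr, mem_sphere_zero_iff_norm] at hz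
      rw [norm_mul, norm_pow, hz, Complex.norm_real, Real.norm_eq_abs, mul_pow, sq_abs]
      ring
    rw [e, h, e2, ih, Finset.sum_range_succ]

/-- Bessel's inequality -/
lemma bessel {r R : ℝ} (hr : 0 < r) (hrR : r < R) (s : ℕ → ℝ) (N : ℕ) {g : ℂ → ℂ}
    (hg : DifferentiableOn ℂ g (ball 0 R)) :
    ∑ k ∈ Finset.range N, s k ^ 2 * r ^ (2 * k) ≤
      av r (fun z => ‖pol s N z + z ^ N * g z‖ ^ 2) := by
  rw [av_add hr hrR s N hg, av_pol hr]
  have : 0 ≤ av r (fun z => ‖z ^ N * g z‖ ^ 2) :=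
    Real.circleAverage_nonneg_of_nonneg (fun x _ => by positivity)
  linarith

/-- the remainder -/
noncomputable def E (z : ℂ) : ℂ :=
  (3495413585664 / 125) + (1115781771299328 / 3125) * z ^ 1 +
    (33964779503055744 / 15625) * z ^ 2 + (659979832011746688 / 78125) * z ^ 3 +
    (1849585115795300352 / 78125) * z ^ 4 + (799774720706166912 / 15625) * z ^ 5 +
    (1390301266708787328 / 15625) * z ^ 6 + (1993698107006409216 / 15625) * z ^ 7 +
    (11971768795684080768 / 78125) * z ^ 8 + (12138160328779024512 / 78125) * z ^ 9 +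
    (2085076162014791424 / 15625) * z ^ 10 + (4553366995601798528 / 46875) * z ^ 11 +
    (935009479549772928 / 15625) * z ^ 12 + (7290271507985467904 / 234375) * z ^ 13 +
    (85955617281573802112 / 6328125) * z ^ 14 + (6269140416343392896 / 1265625) * z ^ 15 +
    (1894171403511962624 / 1265625) * z ^ 16 + (844771045593954176 / 2278125) * z ^ 17 +
    (12702275743719162496 / 170859375) * z ^ 18 + (6075000911650166272 / 512578125) * z ^ 19 +
    (1354226260092484352 / 922640625) * z ^ 20 + (2134199031552 / 15625) * z ^ 21 +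
    (141422827392 / 15625) * z ^ 22 + (29998781568 / 78125) * z ^ 23 +
    (612220032 / 78125) * z ^ 24

/-- the first coefficients -/
noncomputable def sc : ℕ → ℝ
  | 0 => (128 / 2187)
  | 1 => (896 / 1215)
  | 2 => (563584 / 164025)
  | 3 => (9755648 / 1476225)
  | _ => 0

lemma ident (z : ℂ) : (18 / 5) ^ 7 * (1 + 3 * z + z ^ 2) ^ 7 * (5 + 4 * z + z ^ 2) ^ 7 =
    ((128 / 2187) + (896 / 1215) * z + (563584 / 164025) * z ^ 2 +
      (9755648 / 1476225) * z ^ 3) * (3 + 2 * z) ^ 21 + z ^ 4 * E z := by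
  unfold E
  ring

lemma den_ne {z : ℂ} (hz : ‖z‖ < 3 / 2) : 3 + 2 * z ≠ 0 := by
  intro h
  have h1 : z = -(3 / 2) := by linear_combination h / 2
  rw [h1, norm_neg] at hz
  norm_num at hz

lemma hasDeriv {z : ℂ} (hz : ‖z‖ < 3 / 2) :
    HasDerivAt phi14 (6 * (1 + 3 * z + z ^ 2) / (3 + 2 * z) ^ 2) z := by
  have hd := den_ne hz
  have h1 : HasDerivAt (fun z : ℂ => z * (3 * z + 2)) (1 * (3 * z + 2) + z * (3 * 1)) z :=
    (hasDerivAt_id z).mul (((hasDerivAt_id z).const_mul 3).add_const 2)
  have h2 : HasDerivAt (fun z : ℂ => 3 + 2 * z) (2 * 1) z :=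
    ((hasDerivAt_id z).const_mul 2).const_add 3
  have h3 := h1.div h2 hd
  refine h3.congr_deriv ?_
  field_simp
  ring

lemma alg (z D : ℂ) (hD : D ≠ 0) (h : D = 3 + 2 * z) :
    (1 + z * (3 * z + 2) / D / 5) * (6 * (1 + 3 * z + z ^ 2) / D ^ 2) =
      (18 / 5) * (1 + 3 * z + z ^ 2) * (5 + 4 * z + z ^ 2) / D ^ 3 := by
  have h1 : 1 + z * (3 * z + 2) / D / 5 = (5 * D + z * (3 * z + 2)) / (5 * D) := by
    field_simp
  have h2 : 5 * D + z * (3 * z + 2) = 3 * (5 + 4 * z + z ^ 2) := by rw [h]; ring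
  rw [h1, h2]
  field_simp
  ring

lemma selfMap : SelfMap phi14 where
  diff := by
    intro z hz
    rw [mem_ball_zero_iff] at hz
    exact (hasDeriv (by linarith)).differentiableAt.differentiableWithinAt
  maps := by
    intro z hz
    rw [mem_ball_zero_iff] at hz ⊢
    have hd := den_ne (by linarith : ‖z‖ < 3 / 2)
    unfold phi14
    rw [norm_div, norm_mul]
    have h0 : 0 < ‖3 + 2 * z‖ := norm_pos_iff.2 hd
    have h1 : ‖3 * z + 2‖ ≤ ‖3 + 2 * z‖ := by
      apply le_of_sq_le_sq _ h0.le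
      rw [← Complex.normSq_eq_norm_sq, ← Complex.normSq_eq_norm_sq, Complex.normSq_apply,
        Complex.normSq_apply]
      have h2 : z.re * z.re + z.im * z.im ≤ 1 := by
        have := Complex.normSq_eq_norm_sq z
        rw [Complex.normSq_apply] at this
        rw [this]
        nlinarith [norm_nonneg z]
      simp only [Complex.add_re, Complex.add_im, Complex.mul_re, Complex.mul_im]
      norm_num
      nlinarith
    rw [div_lt_one h0]
    nlinarith [norm_nonneg z, norm_nonneg (3 * z + 2)]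
  zero := by unfold phi14; simp

theorem main : S_14 := by
  refine ⟨selfMap, ?_⟩
  -- left side
  have hl : av (1 / 2) (fun z => ‖1 + z / 5‖ ^ (14 : ℕ)) =
      ∑ k ∈ Finset.range 8, ((Nat.choose 7 k : ℝ) / 5 ^ k) ^ 2 * (1 / 2) ^ (2 * k) := by
    rw [← av_pol (by norm_num : (0 : ℝ) < 1 / 2) (fun k => (Nat.choose 7 k : ℝ) / 5 ^ k) 8]
    congr 1
    funext z
    have e : pol (fun k => (Nat.choose 7 k : ℝ) / 5 ^ k) 8 z = (1 + z / 5) ^ 7 := by
      unfold pol
      simp only [Finset.sum_range_succ, Finset.sum_range_zero, Nat.choose]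
      push_cast
      ring
    rw [e, norm_pow, ← pow_mul]
  -- right side
  have hg : DifferentiableOn ℂ (fun z => E z / (3 + 2 * z) ^ 21) (ball 0 1) := by
    apply DifferentiableOn.div
    · apply Differentiable.differentiableOn
      unfold E
      fun_prop
    · fun_prop
    · intro z hz
      rw [mem_ball_zero_iff] at hz
      exact pow_ne_zero _ (den_ne (by linarith))
  have hb := bessel (by norm_num : (0 : ℝ) < 1 / 2) (by norm_num : (1 / 2 : ℝ) < 1) sc 4 hg
  have hr : av (1 / 2) (fun z => ‖(1 + phi14 z / 5) * deriv phi14 z‖ ^ (14 : ℕ)) =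
      av (1 / 2) (fun z => ‖pol sc 4 z + z ^ 4 * (E z / (3 + 2 * z) ^ 21)‖ ^ 2) := by
    unfold av
    apply Real.circleAverage_congr_sphere
    intro z hz
    rw [mem_sphere_zero_iff_norm, abs_of_pos (by norm_num : (0 : ℝ) < 1 / 2)] at hz
    have hz2 : ‖z‖ < 3 / 2 := by rw [hz]; norm_num
    have hd := den_ne hz2
    simp only
    rw [(hasDeriv hz2).deriv]
    have e : pol sc 4 z + z ^ 4 * (E z / (3 + 2 * z) ^ 21) =
        ((1 + phi14 z / 5) * (6 * (1 + 3 * z + z ^ 2) / (3 + 2 * z) ^ 2)) ^ 7 := by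
      have e1 : (1 + phi14 z / 5) * (6 * (1 + 3 * z + z ^ 2) / (3 + 2 * z) ^ 2) =
          (18 / 5) * (1 + 3 * z + z ^ 2) * (5 + 4 * z + z ^ 2) / (3 + 2 * z) ^ 3 := by
        exact alg z _ hd rfl
      have e2 : pol sc 4 z = (128 / 2187) + (896 / 1215) * z + (563584 / 164025) * z ^ 2 +
          (9755648 / 1476225) * z ^ 3 := by
        unfold pol
        simp only [Finset.sum_range_succ, Finset.sum_range_zero, sc]
        push_cast
        ring
      rw [e1, div_pow, mul_pow, mul_pow, ident, ← pow_mul, e2]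
      have hd21 : (3 + 2 * z) ^ 21 ≠ 0 := pow_ne_zero _ hd
      rw [show 3 * 7 = 21 by norm_num, add_div, mul_div_assoc, mul_div_assoc, div_self hd21,
        mul_one]
    rw [e, norm_pow, ← pow_mul]
  rw [hl, hr]
  refine lt_of_lt_of_le ?_ hb
  simp only [Finset.sum_range_succ, Finset.sum_range_zero, sc, Nat.choose]
  norm_num

end Pool.Agent.W753.SR.P14
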